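import Pool.Agent.KS6_59.CE.Main

/-!
# A central element none of whose nonzero powers is realised on any finite covering

The answer to Q1 is no, in the strongest rational form: there are a closed oriented aspherical manifold
`M` and a central element `g` of infinite order of `π₁(M)` which belongs to *every* subgroup of finite
index, such that *no* nonzero power of `g` is realised by a principal `S¹`-action on *any* finite covering
of `M`.  (The starting result `SquaresOfCentralElements` has a `g = z²` such that `g` itself is not realised on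
the finite coverings; there nothing is said about the powers of `g`, and `z` is only known to lie in
the subgroups of finite index which contain `z²`.)

**The reason.** Let `z = [a, b]` be central, `s a s⁻¹ = a²` and `t a t⁻¹ = s` (the relations of the
Baumslag-Gersten group).  In a finite quotient `a` and `s` have the same order `n`, so that
`a = sⁿ a s⁻ⁿ = a ^ (2ⁿ)`, and `n` divides `2ⁿ - 1`; hence `n = 1`, `a = 1` and `z = 1`.  So `z` belongs to every
subgroup of finite index.  If `z ^ k`, `|k| ≥ 2`, were realised on the finite covering `N`, then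
`π₁(N) / ⟨z ^ k⟩` would be torsion-free, but it has the element `z` of order `|k|`.

**The manifold.** `P = ⟨a, b, s, t | [a, b] = 1, s a s⁻¹ = a², t a t⁻¹ = s⟩` is obtained from `ℤ × ℤ` by two HNN
extensions along infinite cyclic groups, so it has a finite classifying complex and is a retract of
the fundamental group of a closed oriented aspherical manifold `N₀` (Davis).  A central extension
of `P` with `[a, b] = z` is mapped to an HNN extension of a matrix group along two subgroups
`⟨a, z⟩ ≅ ⟨s, z⟩ ≅ ℤ²`, in which `z` has infinite order; its pull-back to `π₁(N₀)` is the fundamental group of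
a principal circle bundle `M` over `N₀`.  (This group cannot be linear.)

`Manifolds` (the starting library) lists the topological facts which are used.
-/

set_option autoImplicit false

namespace Pool.Agent.Results.MP_2f0aff_gt.NoPowerRealised

open Pool.Agent.R901.CA Pool.Agent.KS6_59.CE

universe u

/-- (1) If `z = [a, b]` is central, `s a s⁻¹ = a²` and `t a t⁻¹ = s` in a group, then `z` is an element of
every subgroup of finite index. (2) There are a closed oriented aspherical manifold `M` and a
central element `z` of infinite order of `π₁(M)` which lies in the fundamental groups of all finite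
coverings of `M`, such that for all finite coverings `N` of `M` and all integers `k ≠ 0, 1, -1` there is
no principal `S¹`-action on `N` which realises `z ^ k`. (3) So there are a closed oriented aspherical
manifold `M` and a central element `g` of infinite order of `π₁(M)` which lies in the fundamental
groups of all finite coverings of `M`, and no power `g ^ k`, `k ≠ 0`, is realised by a principal
`S¹`-action on a finite covering of `M`. (4) The listed facts are consistent. -/
theorem result :
    (∀ (G : Type) [Group G] (a b s t z : G), a * b = z * (b * a) → (∀ g : G, z * g = g * z) →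
      s * a * s⁻¹ = a ^ 2 → t * a * t⁻¹ = s → ∀ H : Subgroup G, H.FiniteIndex → z ∈ H) ∧
    (∀ 𝒯 : Manifolds.{u}, ∃ (M : 𝒯.Mfd) (z : 𝒯.π M),
      (∀ x, z * x = x * z) ∧ (∀ n : ℕ, n ≠ 0 → z ^ n ≠ 1) ∧
      (∀ H : Subgroup (𝒯.π M), H.FiniteIndex → z ∈ H) ∧
      ∀ H : Subgroup (𝒯.π M), H.FiniteIndex → ∀ k : ℤ, k ≠ 0 → k ≠ 1 → k ≠ -1 →
        ¬ 𝒯.Realised M H (z ^ k)) ∧
    (∀ 𝒯 : Manifolds.{u}, ∃ (M : 𝒯.Mfd) (g : 𝒯.π M),
      (∀ x, g * x = x * g) ∧ (∀ n : ℕ, n ≠ 0 → g ^ n ≠ 1) ∧
      ∀ H : Subgroup (𝒯.π M), H.FiniteIndex → g ∈ H ∧
        ∀ k : ℤ, k ≠ 0 → ¬ 𝒯.Realised M H (g ^ k)) ∧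
    Nonempty Manifolds.{1} := by
  refine ⟨fun _ _ _ _ _ _ _ h1 h2 h3 h4 H _ => Rel4.mem ⟨h1, h2, h3, h4⟩ H,
    fun 𝒯 => exists_manifold4 𝒯, fun 𝒯 => ?_, ⟨model⟩⟩
  obtain ⟨M, z, h1, h2, h3, h4⟩ := exists_manifold4 𝒯
  refine ⟨M, z ^ 2, fun x => ?_, fun n hn h => ?_, fun H hH => ⟨H.pow_mem (h3 H hH) 2, ?_⟩⟩
  · exact ((show Commute z x from h1 x).pow_left 2).eq
  · rw [← pow_mul] at h
    exact h2 (2 * n) (by omega) h
  · intro k hk
    have h5 : (z ^ 2) ^ k = z ^ (2 * k) := by
      rw [zpow_mul, zpow_ofNat]
    rw [h5]
    exact h4 H hH (2 * k) (by omega) (by omega) (by omega)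

end Pool.Agent.Results.MP_2f0aff_gt.NoPowerRealised
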